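import Mathlib

/-! # MP_c9a594_an: orbit closures and translations by numbers with countable orbit closures

For a real number `x` let `K_a(x)` be the closure of the orbit of `x` modulo one under
multiplication by `a`, and let `C_a` be the set of all real `y` such that `K_a(y)` is countable.

1. `C_a` is a linear space over the rational numbers and contains them; for `a ≥ 2` it contains
   the transcendental number `∑ a^(-n!)`.
2. `dim K_a(r x + y) = dim K_a(x)` for all real `x`, rational `r ≠ 0` and `y` in `C_a`, and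
   `dim K_{a^k}(x) = dim K_a(x)` for all `k ≥ 1`.
3. Let `F_{a,b}(x) = dim K_a(x) + dim K_b(x)`. For all `a, b ≥ 2` the following are equivalent:
   `F_{a,b}(x) ≥ 1` for all irrational `x` in `[0,1)`; `F_{a,b}(x) ≥ 1` for all irrational `x` in
   some nonempty open set; `F_{a^k,b^l}(x) ≥ 1` for all irrational `x` in `[0,1)` for some
   `k, l ≥ 1`; the same for all `k, l ≥ 1`; `dim K_a(r x + y) + dim K_b(r' x + z) ≥ 1` for all
   irrational `x`, rational `r, r' ≠ 0`, `y` in `C_a`, `z` in `C_b`; if `X` and `Y` are closed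
   subsets of `[0,1]` invariant under multiplication by `a` and by `b` modulo one,
   `dim X + dim Y < 1`, and `x - y = r (x' - z)` with `x` in `X`, `x'` in `Y`, `y` in `C_a`, `z` in
   `C_b` and rational `r ≠ 0`, then `x - y` is rational. -/

set_option autoImplicit false

open Filter Topology

namespace Pool.Agent.Results.MP_c9a594_an.CountableTranslations

/-- the closure of the orbit of `x` modulo one under multiplication by `a` -/
def K (a : ℕ) (x : ℝ) : Set ℝ := closure (Set.range fun n : ℕ => Int.fract ((a : ℝ) ^ n * x))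

/-- the numbers with countable orbit closure -/
def C (a : ℕ) : Set ℝ := {y | (K a y).Countable}

/-- `dim K_a(x) + dim K_b(x)` -/
noncomputable def F (a b : ℕ) (x : ℝ) : ENNReal := dimH (K a x) + dimH (K b x)

lemma range_sub (a : ℕ) (x : ℝ) :
    (Set.range fun n : ℕ => Int.fract ((a : ℝ) ^ n * x)) ⊆ Set.Icc (0 : ℝ) 1 := by
  rintro _ ⟨n, rfl⟩
  exact ⟨Int.fract_nonneg _, (Int.fract_lt_one _).le⟩

lemma K_sub (a : ℕ) (x : ℝ) : K a x ⊆ Set.Icc (0 : ℝ) 1 :=
  closure_minimal (range_sub a x) isClosed_Icc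

lemma K_compact (a : ℕ) (x : ℝ) : IsCompact (K a x) :=
  isCompact_Icc.of_isClosed_subset isClosed_closure (K_sub a x)

lemma mem_K (a : ℕ) (x : ℝ) (n : ℕ) : Int.fract ((a : ℝ) ^ n * x) ∈ K a x :=
  subset_closure ⟨n, rfl⟩

/-- the orbit closure of `(u x + v) / w` -/
lemma K_affine (a : ℕ) (x : ℝ) (u v w : ℤ) (hw : w ≠ 0) :
    K a ((u * x + v) / w) ⊆
      ⋃ m ∈ (Finset.Icc (-(|u| + |w|)) (|u| + |w|) : Finset ℤ),
        (fun y : ℝ => (u * y + m) / w) '' K a x := by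
  refine closure_minimal ?_ ?_
  · rintro _ ⟨n, rfl⟩
    have hw' : (w : ℝ) ≠ 0 := by exact_mod_cast hw
    simp only
    set z : ℝ := (a : ℝ) ^ n * ((u * x + v) / w) with hz
    set y : ℝ := Int.fract ((a : ℝ) ^ n * x) with hy
    set m : ℤ := u * ⌊(a : ℝ) ^ n * x⌋ + (a : ℤ) ^ n * v - w * ⌊z⌋ with hm
    have e1 : y = (a : ℝ) ^ n * x - ⌊(a : ℝ) ^ n * x⌋ := rfl
    have e2 : Int.fract z = z - ⌊z⌋ := rfl
    have hmr : (m : ℝ) = w * Int.fract z - u * y := by
      rw [hm, e1, e2, hz]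
      push_cast
      field_simp
      ring
    have key : Int.fract z = (u * y + m) / w := by
      rw [hmr]
      field_simp
      ring
    have hy0 : 0 ≤ y := Int.fract_nonneg _
    have hy1 : y ≤ 1 := (Int.fract_lt_one _).le
    have hz0 : 0 ≤ Int.fract z := Int.fract_nonneg _
    have hz1 : Int.fract z ≤ 1 := (Int.fract_lt_one _).le
    have habs : |(m : ℝ)| ≤ |(u : ℝ)| + |(w : ℝ)| := by
      rw [hmr]
      have h1 : |(w : ℝ) * Int.fract z| ≤ |(w : ℝ)| := by
        rw [abs_mul, abs_of_nonneg hz0]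
        nlinarith [abs_nonneg (w : ℝ)]
      have h2 : |(u : ℝ) * y| ≤ |(u : ℝ)| := by
        rw [abs_mul, abs_of_nonneg hy0]
        nlinarith [abs_nonneg (u : ℝ)]
      have h3 := abs_sub ((w : ℝ) * Int.fract z) ((u : ℝ) * y)
      linarith
    have habs' : |m| ≤ |u| + |w| := by exact_mod_cast habs
    rw [abs_le] at habs'
    refine Set.mem_biUnion (x := m) ?_ ⟨y, mem_K a x n, key.symm⟩
    exact_mod_cast Finset.mem_Icc.2 habs'
  · refine (Finset.finite_toSet _).isClosed_biUnion fun m _ => ?_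
    refine ((K_compact a x).image ?_).isClosed
    fun_prop

lemma dim_affine_le (a : ℕ) (x : ℝ) (u v w : ℤ) (hw : w ≠ 0) :
    dimH (K a ((u * x + v) / w)) ≤ dimH (K a x) := by
  refine (dimH_mono (K_affine a x u v w hw)).trans ?_
  have hc : (((Finset.Icc (-(|u| + |w|)) (|u| + |w|) : Finset ℤ)) : Set ℤ).Countable :=
    (Finset.finite_toSet _).countable
  have := dimH_bUnion hc (fun m : ℤ => (fun y : ℝ => (u * y + m) / w) '' K a x)
  refine (le_of_eq this).trans (iSup₂_le fun m _ => ?_)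
  have hL : LipschitzWith (Real.toNNReal |(u : ℝ) / w|) (fun y : ℝ => ((u : ℝ) * y + m) / w) := by
    refine LipschitzWith.of_dist_le_mul fun y z => ?_
    rw [Real.dist_eq, Real.dist_eq, Real.coe_toNNReal _ (abs_nonneg _), ← abs_mul]
    refine le_of_eq ?_
    congr 1
    ring
  exact hL.dimH_image_le _

lemma dim_rat_le (a : ℕ) (x : ℝ) (r s : ℚ) : dimH (K a (r * x + s)) ≤ dimH (K a x) := by
  have h := dim_affine_le a x (r.num * s.den) (s.num * r.den) (r.den * s.den)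
    (by positivity)
  have e : (((r.num * s.den : ℤ) : ℝ) * x + ((s.num * r.den : ℤ) : ℝ)) / ((r.den * s.den : ℤ) : ℝ)
      = r * x + s := by
    have h1 : (r.den : ℝ) ≠ 0 := by exact_mod_cast r.den_ne_zero
    have h2 : (s.den : ℝ) ≠ 0 := by exact_mod_cast s.den_ne_zero
    have h3 : (r : ℝ) * r.den = r.num := by exact_mod_cast Rat.mul_den_eq_num r
    have h4 : (s : ℝ) * s.den = s.num := by exact_mod_cast Rat.mul_den_eq_num s
    push_cast
    rw [div_eq_iff (by positivity), ← h3, ← h4]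
    ring
  rwa [e] at h

lemma dim_rat (a : ℕ) (x : ℝ) (r s : ℚ) (hr : r ≠ 0) :
    dimH (K a (r * x + s)) = dimH (K a x) := by
  refine le_antisymm (dim_rat_le a x r s) ?_
  have h := dim_rat_le a (r * x + s) (1 / r) (-s / r)
  have hr' : (r : ℝ) ≠ 0 := by exact_mod_cast hr
  have e : ((1 / r : ℚ) : ℝ) * (r * x + s) + ((-s / r : ℚ) : ℝ) = x := by
    push_cast
    field_simp
    ring
  rwa [e] at h

lemma C_zero (a : ℕ) : (0 : ℝ) ∈ C a := by
  have : K a 0 ⊆ {0} := by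
    refine closure_minimal ?_ isClosed_singleton
    rintro _ ⟨n, rfl⟩
    simp
  exact (Set.countable_singleton 0).mono this

lemma C_affine (a : ℕ) {y : ℝ} (hy : y ∈ C a) (r s : ℚ) : (r : ℝ) * y + s ∈ C a := by
  have h := K_affine a y (r.num * s.den) (s.num * r.den) (r.den * s.den) (by positivity)
  have e : (((r.num * s.den : ℤ) : ℝ) * y + ((s.num * r.den : ℤ) : ℝ)) / ((r.den * s.den : ℤ) : ℝ)
      = r * y + s := by
    have h1 : (r.den : ℝ) ≠ 0 := by exact_mod_cast r.den_ne_zero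
    have h2 : (s.den : ℝ) ≠ 0 := by exact_mod_cast s.den_ne_zero
    have h3 : (r : ℝ) * r.den = r.num := by exact_mod_cast Rat.mul_den_eq_num r
    have h4 : (s : ℝ) * s.den = s.num := by exact_mod_cast Rat.mul_den_eq_num s
    push_cast
    rw [div_eq_iff (by positivity), ← h3, ← h4]
    ring
  rw [e] at h
  refine Set.Countable.mono h ?_
  exact (Finset.finite_toSet _).countable.biUnion fun m _ => Set.Countable.image hy _

lemma C_rat (a : ℕ) (s : ℚ) : (s : ℝ) ∈ C a := by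
  have := C_affine a (C_zero a) 1 s
  rwa [mul_zero, zero_add] at this

lemma C_smul (a : ℕ) {y : ℝ} (hy : y ∈ C a) (r : ℚ) : (r : ℝ) * y ∈ C a := by
  have := C_affine a hy r 0
  rwa [Rat.cast_zero, add_zero] at this

/-- the orbit closure of a sum -/
lemma K_add (a : ℕ) (x y : ℝ) : K a (x + y) ⊆
    ⋃ t ∈ K a y, ((fun s : ℝ => s + t) '' K a x ∪ (fun s : ℝ => s + (t - 1)) '' K a x) := by
  have hsub : K a (x + y) ⊆ (fun p : ℝ × ℝ => p.1 + p.2) '' (K a x ×ˢ K a y) ∪
      (fun p : ℝ × ℝ => p.1 + (p.2 - 1)) '' (K a x ×ˢ K a y) := by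
    refine closure_minimal ?_ ?_
    · rintro _ ⟨n, rfl⟩
      simp only
      have hs := mem_K a x n
      have ht := mem_K a y n
      rw [mul_add]
      rcases Int.fract_add (( a : ℝ) ^ n * x) ((a : ℝ) ^ n * y) with ⟨z, hz⟩
      have h0 := Int.fract_nonneg ((a : ℝ) ^ n * x)
      have h1 := Int.fract_lt_one ((a : ℝ) ^ n * x)
      have h2 := Int.fract_nonneg ((a : ℝ) ^ n * y)
      have h3 := Int.fract_lt_one ((a : ℝ) ^ n * y)
      have h4 := Int.fract_nonneg ((a : ℝ) ^ n * x + (a : ℝ) ^ n * y)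
      have h5 := Int.fract_lt_one ((a : ℝ) ^ n * x + (a : ℝ) ^ n * y)
      have hz1 : (z : ℝ) < 1 := by linarith
      have hz2 : (-2 : ℝ) < z := by linarith
      have hz1' : z < 1 := by exact_mod_cast hz1
      have hz2' : -2 < z := by exact_mod_cast hz2
      have hz3 : z = 0 ∨ z = -1 := by omega
      rcases hz3 with rfl | rfl
      · left
        refine ⟨(Int.fract ((a : ℝ) ^ n * x), Int.fract ((a : ℝ) ^ n * y)), ⟨hs, ht⟩, ?_⟩
        change Int.fract ((a : ℝ) ^ n * x) + Int.fract ((a : ℝ) ^ n * y) = _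
        push_cast at hz
        linarith
      · right
        refine ⟨(Int.fract ((a : ℝ) ^ n * x), Int.fract ((a : ℝ) ^ n * y)), ⟨hs, ht⟩, ?_⟩
        change Int.fract ((a : ℝ) ^ n * x) + (Int.fract ((a : ℝ) ^ n * y) - 1) = _
        push_cast at hz
        linarith
    · have hK := (K_compact a x).prod (K_compact a y)
      exact (hK.image (by fun_prop)).isClosed.union (hK.image (by fun_prop)).isClosed
  refine hsub.trans ?_
  rintro _ (⟨⟨s, t⟩, ⟨hs, ht⟩, rfl⟩ | ⟨⟨s, t⟩, ⟨hs, ht⟩, rfl⟩)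
  · exact Set.mem_biUnion ht (Or.inl ⟨s, hs, rfl⟩)
  · exact Set.mem_biUnion ht (Or.inr ⟨s, hs, rfl⟩)

lemma C_add (a : ℕ) {x y : ℝ} (hx : x ∈ C a) (hy : y ∈ C a) : x + y ∈ C a := by
  refine Set.Countable.mono (K_add a x y) ?_
  exact Set.Countable.biUnion hy fun t _ =>
    (Set.Countable.image hx _).union (Set.Countable.image hx _)

lemma dim_add_le (a : ℕ) (x : ℝ) {y : ℝ} (hy : y ∈ C a) : dimH (K a (x + y)) ≤ dimH (K a x) := by
  refine (dimH_mono (K_add a x y)).trans ?_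
  have := dimH_bUnion hy (fun t : ℝ =>
    (fun s : ℝ => s + t) '' K a x ∪ (fun s : ℝ => s + (t - 1)) '' K a x)
  refine (le_of_eq this).trans (iSup₂_le fun t _ => ?_)
  rw [dimH_union]
  have hL : ∀ c : ℝ, LipschitzWith 1 (fun s : ℝ => s + c) := fun c => by
    refine LipschitzWith.of_dist_le_mul fun y z => ?_
    rw [Real.dist_eq, Real.dist_eq, NNReal.coe_one, one_mul]
    refine le_of_eq ?_
    congr 1
    ring
  exact max_le ((hL t).dimH_image_le _) ((hL (t - 1)).dimH_image_le _)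

/-- invariance of the dimension -/
lemma dim_C (a : ℕ) (x : ℝ) (r : ℚ) (hr : r ≠ 0) {y : ℝ} (hy : y ∈ C a) :
    dimH (K a (r * x + y)) = dimH (K a x) := by
  have h0 : ∀ t : ℝ, ∀ q : ℚ, dimH (K a (q * t)) ≤ dimH (K a t) := fun t q => by
    have := dim_rat_le a t q 0
    rwa [Rat.cast_zero, add_zero] at this
  refine le_antisymm ((dim_add_le a _ hy).trans (h0 x r)) ?_
  have h := (dim_add_le a (((1 / r : ℚ) : ℝ) * (r * x + y)) (C_smul a hy (-(1 / r)))).trans
    (h0 (r * x + y) (1 / r))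
  have hr' : (r : ℝ) ≠ 0 := by exact_mod_cast hr
  have e : ((1 / r : ℚ) : ℝ) * (r * x + y) + ((-(1 / r) : ℚ) : ℝ) * y = x := by
    push_cast
    field_simp
    ring
  rwa [e] at h

lemma dim_pow (a : ℕ) (x : ℝ) {k : ℕ} (hk : 0 < k) :
    dimH (K (a ^ k) x) = dimH (K a x) := by
  apply le_antisymm
  · refine dimH_mono (closure_mono ?_)
    rintro _ ⟨n, rfl⟩
    refine ⟨k * n, ?_⟩
    simp only
    push_cast
    rw [pow_mul]
  · have hsub : K a x ⊆ ⋃ i ∈ Finset.range k, K (a ^ k) ((a : ℝ) ^ i * x) := by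
      refine closure_minimal ?_ ?_
      · rintro _ ⟨n, rfl⟩
        refine Set.mem_biUnion (x := n % k) ?_ ?_
        · exact_mod_cast Finset.mem_range.2 (Nat.mod_lt n hk)
        · have h := mem_K (a ^ k) ((a : ℝ) ^ (n % k) * x) (n / k)
          have e : (((a ^ k : ℕ) : ℝ)) ^ (n / k) * ((a : ℝ) ^ (n % k) * x) = (a : ℝ) ^ n * x := by
            push_cast
            rw [← pow_mul, ← mul_assoc, ← pow_add, Nat.div_add_mod]
          rw [e] at h
          exact h
      · exact (Finset.finite_toSet _).isClosed_biUnion fun i _ => isClosed_closure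
    refine (dimH_mono hsub).trans ?_
    have hc : ((Finset.range k : Finset ℕ) : Set ℕ).Countable := (Finset.finite_toSet _).countable
    have := dimH_bUnion hc (fun i : ℕ => K (a ^ k) ((a : ℝ) ^ i * x))
    refine (le_of_eq this).trans (iSup₂_le fun i _ => ?_)
    have h := dim_rat_le (a ^ k) x ((a : ℚ) ^ i) 0
    push_cast at h
    rw [add_zero] at h
    exact h

lemma F_rat (a b : ℕ) (x : ℝ) (r s : ℚ) (hr : r ≠ 0) : F a b (r * x + s) = F a b x := by
  unfold F
  rw [dim_rat a x r s hr, dim_rat b x r s hr]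

lemma F_pow (a b : ℕ) (x : ℝ) {k l : ℕ} (hk : 0 < k) (hl : 0 < l) :
    F (a ^ k) (b ^ l) x = F a b x := by
  unfold F
  rw [dim_pow a x hk, dim_pow b x hl]

lemma fract_mul_fract (a : ℕ) (x : ℝ) : Int.fract ((a : ℝ) * Int.fract x) = Int.fract (a * x) := by
  rw [Int.fract_eq_fract]
  refine ⟨-(a * ⌊x⌋), ?_⟩
  have e : Int.fract x = x - ⌊x⌋ := rfl
  rw [e]
  push_cast
  ring

/-- closed invariant sets contain the orbit closures of their points -/
lemma K_sub_of_inv {a : ℕ} {X : Set ℝ} (hX : IsClosed X) (hinv : ∀ x ∈ X, Int.fract ((a : ℝ) * x) ∈ X)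
    {x : ℝ} (hx : x ∈ X) (hx' : x ∈ Set.Ico (0 : ℝ) 1) : K a x ⊆ X := by
  refine closure_minimal ?_ hX
  rintro _ ⟨n, rfl⟩
  simp only
  induction n with
  | zero =>
    rw [pow_zero, one_mul, Int.fract_eq_self.2 hx']
    exact hx
  | succ n ih =>
    have h := hinv _ ih
    rw [fract_mul_fract] at h
    rw [pow_succ']
    rwa [mul_assoc]

lemma K_inv (a : ℕ) (x : ℝ) (y : ℝ) (hy : y ∈ K a x ∪ {0}) :
    Int.fract ((a : ℝ) * y) ∈ K a x ∪ {0} := by
  rcases hy with hy | hy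
  · by_cases hint : Int.fract ((a : ℝ) * y) = 0
    · right
      exact hint
    · left
      have hcont : ContinuousAt (fun t : ℝ => Int.fract ((a : ℝ) * t)) y := by
        have h1 : ContinuousAt (Int.fract : ℝ → ℝ) ((a : ℝ) * y) := by
          have hlt : (⌊(a : ℝ) * y⌋ : ℝ) < a * y := by
            refine lt_of_le_of_ne (Int.floor_le _) fun h => hint ?_
            rw [← Int.self_sub_floor, ← h, Int.floor_intCast]
            ring
          have hlt2 := Int.lt_floor_add_one ((a : ℝ) * y)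
          have hev : (fun t : ℝ => t - (⌊(a : ℝ) * y⌋ : ℝ)) =ᶠ[𝓝 ((a : ℝ) * y)] Int.fract := by
            filter_upwards [Ioo_mem_nhds hlt hlt2] with t ht
            have : ⌊t⌋ = ⌊(a : ℝ) * y⌋ := Int.floor_eq_iff.2 ⟨ht.1.le, ht.2⟩
            rw [← Int.self_sub_floor, this]
          exact (continuousAt_id.sub continuousAt_const).congr hev
        exact h1.comp (f := fun t : ℝ => (a : ℝ) * t) (by fun_prop)
      have hmem := hcont.continuousWithinAt (s := Set.range fun n : ℕ =>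
        Int.fract ((a : ℝ) ^ n * x)) |>.mem_closure_image hy
      refine closure_mono ?_ hmem
      rintro _ ⟨_, ⟨n, rfl⟩, rfl⟩
      refine ⟨n + 1, ?_⟩
      simp only
      rw [fract_mul_fract, pow_succ', mul_assoc]
  · right
    rw [Set.mem_singleton_iff] at hy ⊢
    rw [hy, mul_zero, Int.fract_zero]

lemma countable_closure {s : ℕ → ℝ} {D : Set ℝ} (hD : IsClosed D) (hc : D.Countable)
    (h : ∀ ε : ℝ, 0 < ε → ∃ N : ℕ, ∀ n ≥ N, ∃ d ∈ D, |s n - d| < ε) :
    (closure (Set.range s)).Countable := by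
  refine Set.Countable.mono (s₂ := Set.range s ∪ D) ?_ ((Set.countable_range s).union hc)
  intro z hz
  by_contra hcon
  rw [Set.mem_union, not_or] at hcon
  obtain ⟨hz1, hz2⟩ := hcon
  obtain ⟨ε, hε, hball⟩ := Metric.isOpen_iff.1 hD.isOpen_compl z hz2
  obtain ⟨N, hN⟩ := h (ε / 2) (half_pos hε)
  have hfin : IsClosed (s '' (Set.Iio N)) := ((Set.finite_Iio N).image s).isClosed
  have hzn : z ∉ s '' Set.Iio N := fun ⟨n, _, h⟩ => hz1 ⟨n, h⟩
  have hopen : IsOpen (Metric.ball z (ε / 2) ∩ (s '' Set.Iio N)ᶜ) :=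
    Metric.isOpen_ball.inter hfin.isOpen_compl
  obtain ⟨_, ⟨hy1, hy2⟩, ⟨n, rfl⟩⟩ := mem_closure_iff.1 hz _ hopen
    ⟨Metric.mem_ball_self (half_pos hε), hzn⟩
  by_cases hn : n < N
  · exact hy2 ⟨n, hn, rfl⟩
  · obtain ⟨d, hd, hlt⟩ := hN n (not_lt.1 hn)
    refine hball ?_ hd
    rw [Metric.mem_ball, Real.dist_eq] at hy1 ⊢
    rw [abs_lt] at hy1 hlt ⊢
    constructor <;> linarith [hy1.1, hy1.2, hlt.1, hlt.2]

lemma exists_fact (K n : ℕ) (hn : K.factorial ≤ n) :
    ∃ k, K ≤ k ∧ k.factorial ≤ n ∧ n < (k + 1).factorial := by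
  classical
  have hex : ∃ m : ℕ, n < m.factorial := ⟨n + 1, lt_of_lt_of_le (Nat.lt_succ_self n)
    (Nat.self_le_factorial (n + 1))⟩
  have hm := Nat.find_spec hex
  have hmin := fun m => Nat.find_min (m := m) hex
  obtain ⟨k, hk⟩ : ∃ k, Nat.find hex = k + 1 := by
    refine Nat.exists_eq_succ_of_ne_zero fun h0 => ?_
    rw [h0, Nat.factorial_zero] at hm
    have := Nat.factorial_pos K
    omega
  rw [hk] at hm
  have h1 := hmin k (by omega)
  push Not at h1
  refine ⟨k, ?_, h1, hm⟩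
  by_contra hcon
  push Not at hcon
  have := Nat.factorial_le (show k + 1 ≤ K by omega)
  omega

/-- the number `∑ a^(-n!)` has a countable orbit closure -/
lemma C_liouville {a : ℕ} (ha : 2 ≤ a) : liouvilleNumber (a : ℝ) ∈ C a := by
  change (closure (Set.range fun n : ℕ =>
    Int.fract ((a : ℝ) ^ n * liouvilleNumber (a : ℝ)))).Countable
  have ha2 : (2 : ℝ) ≤ a := by exact_mod_cast ha
  have ha1 : (1 : ℝ) < a := by linarith
  have ha0 : (0 : ℝ) < a := by linarith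
  have hlt1 : (1 / a : ℝ) < 1 := (div_lt_one ha0).2 ha1
  have hhalf : (1 / a : ℝ) ≤ 1 / 2 := one_div_le_one_div_of_le (by norm_num) ha2
  have htend : Tendsto (fun j : ℕ => (1 / (a : ℝ)) ^ (j + 1)) atTop (𝓝 0) :=
    (tendsto_add_atTop_iff_nat 1).2 (tendsto_pow_atTop_nhds_zero_of_lt_one (by positivity) hlt1)
  refine countable_closure (D := insert (0 : ℝ) (Set.range fun j : ℕ => (1 / (a : ℝ)) ^ (j + 1)))
    htend.isCompact_insert_range.isClosed ((Set.countable_range _).insert 0) ?_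
  intro ε hε
  obtain ⟨K, hK⟩ := exists_pow_lt_of_lt_one hε (show (1 / 2 : ℝ) < 1 by norm_num)
  refine ⟨(K + 1).factorial, fun n hn => ?_⟩
  obtain ⟨k, hKk, hk1, hk2⟩ := exists_fact (K + 1) n hn
  obtain ⟨j, hj⟩ : ∃ j, (k + 1).factorial = n + (j + 1) := ⟨(k + 1).factorial - n - 1, by omega⟩
  obtain ⟨i, hi⟩ := Nat.exists_eq_add_of_le hk1
  refine ⟨_, Or.inr ⟨j, rfl⟩, ?_⟩
  have hL : liouvilleNumber (a : ℝ) = LiouvilleNumber.partialSum a (k + 1) +
      LiouvilleNumber.remainder a (k + 1) := (LiouvilleNumber.partialSum_add_remainder ha1 _).symm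
  obtain ⟨p, hp⟩ := LiouvilleNumber.partialSum_eq_rat (m := a) (by omega) k
  rw [LiouvilleNumber.partialSum_succ, hp] at hL
  have hr0 := LiouvilleNumber.remainder_pos ha1 (k + 1)
  have hr1 := LiouvilleNumber.remainder_lt (k + 1) ha2
  set R := LiouvilleNumber.remainder (a : ℝ) (k + 1) with hR
  set A : ℝ := (a : ℝ) ^ (k + 1).factorial with hA
  have hA2 : (2 : ℝ) ≤ A := by
    have h1 : (a : ℝ) ^ 1 ≤ A := pow_le_pow_right₀ ha1.le (Nat.factorial_pos _)
    rw [pow_one] at h1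
    linarith
  have hAn : (a : ℝ) ^ n ≤ A := pow_le_pow_right₀ ha1.le hk2.le
  have hδ0 : 0 < (a : ℝ) ^ n * R := by positivity
  have hδ1 : (a : ℝ) ^ n * R < (1 / 2 : ℝ) ^ k := by
    calc (a : ℝ) ^ n * R < (a : ℝ) ^ n * (1 / A ^ (k + 1)) :=
          mul_lt_mul_of_pos_left hr1 (by positivity)
      _ ≤ A * (1 / A ^ (k + 1)) := mul_le_mul_of_nonneg_right hAn (by positivity)
      _ = (1 / A) ^ k := by
          rw [one_div_pow, pow_succ]
          field_simp
      _ ≤ (1 / 2 : ℝ) ^ k := by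
          refine pow_le_pow_left₀ (by positivity) ?_ k
          exact one_div_le_one_div_of_le (by norm_num) hA2
  have hAe : A = (a : ℝ) ^ n * (a : ℝ) ^ (j + 1) := by rw [hA, hj, pow_add]
  have key : (a : ℝ) ^ n * liouvilleNumber (a : ℝ) =
      (((a : ℤ) ^ i * p : ℤ) : ℝ) + ((1 / (a : ℝ)) ^ (j + 1) + (a : ℝ) ^ n * R) := by
    have e2 : (a : ℝ) ^ n * ((p : ℝ) / ((a ^ k.factorial : ℕ) : ℝ)) = (a : ℝ) ^ i * p := by
      rw [hi, pow_add]
      push_cast
      field_simp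
    have e3 : (a : ℝ) ^ n * (1 / A) = (1 / (a : ℝ)) ^ (j + 1) := by
      rw [hAe, one_div_pow]
      field_simp
    rw [hL, mul_add, mul_add, e2, e3]
    push_cast
    ring
  have hd0 : 0 ≤ (1 / (a : ℝ)) ^ (j + 1) := by positivity
  have hd1 : (1 / (a : ℝ)) ^ (j + 1) ≤ 1 / 2 := by
    calc (1 / (a : ℝ)) ^ (j + 1) ≤ (1 / (a : ℝ)) ^ 1 :=
          pow_le_pow_of_le_one (by positivity) hlt1.le (by omega)
      _ ≤ 1 / 2 := by rw [pow_one]; exact hhalf
  have hpow1 : (1 / 2 : ℝ) ^ k ≤ (1 / 2 : ℝ) ^ 1 :=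
    pow_le_pow_of_le_one (by norm_num) (by norm_num) (by omega)
  have hpow2 : (1 / 2 : ℝ) ^ k ≤ (1 / 2 : ℝ) ^ K :=
    pow_le_pow_of_le_one (by norm_num) (by norm_num) (by omega)
  have hfr : Int.fract ((a : ℝ) ^ n * liouvilleNumber (a : ℝ)) =
      (1 / (a : ℝ)) ^ (j + 1) + (a : ℝ) ^ n * R := by
    rw [key, Int.fract_intCast_add]
    exact Int.fract_eq_self.2 ⟨by positivity, by linarith⟩
  simp only
  rw [hfr, add_sub_cancel_left, abs_of_pos hδ0]
  linarith

theorem result :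
    (∀ a : ℕ, (∀ s : ℚ, (s : ℝ) ∈ C a) ∧ (∀ y ∈ C a, ∀ z ∈ C a, y + z ∈ C a) ∧
      ∀ y ∈ C a, ∀ r : ℚ, (r : ℝ) * y ∈ C a) ∧
    (∀ a : ℕ, 2 ≤ a → liouvilleNumber (a : ℝ) ∈ C a ∧ Transcendental ℤ (liouvilleNumber (a : ℝ))) ∧
    (∀ (a : ℕ) (x : ℝ) (r : ℚ), r ≠ 0 → ∀ y ∈ C a, dimH (K a (r * x + y)) = dimH (K a x)) ∧
    (∀ (a : ℕ) (x : ℝ) (k : ℕ), 0 < k → dimH (K (a ^ k) x) = dimH (K a x)) ∧
    ∀ a b : ℕ, 2 ≤ a → 2 ≤ b → List.TFAE [
      ∀ x ∈ Set.Ico (0 : ℝ) 1, Irrational x → 1 ≤ F a b x,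
      ∃ U : Set ℝ, IsOpen U ∧ U.Nonempty ∧ ∀ x ∈ U, Irrational x → 1 ≤ F a b x,
      ∃ k l : ℕ, 0 < k ∧ 0 < l ∧
        ∀ x ∈ Set.Ico (0 : ℝ) 1, Irrational x → 1 ≤ F (a ^ k) (b ^ l) x,
      ∀ k l : ℕ, 0 < k → 0 < l →
        ∀ x ∈ Set.Ico (0 : ℝ) 1, Irrational x → 1 ≤ F (a ^ k) (b ^ l) x,
      ∀ x : ℝ, Irrational x → ∀ r r' : ℚ, r ≠ 0 → r' ≠ 0 → ∀ y ∈ C a, ∀ z ∈ C b,
        1 ≤ dimH (K a (r * x + y)) + dimH (K b (r' * x + z)),
      ∀ X Y : Set ℝ, IsClosed X → IsClosed Y → X ⊆ Set.Icc 0 1 → Y ⊆ Set.Icc 0 1 →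
        (∀ x ∈ X, Int.fract ((a : ℝ) * x) ∈ X) → (∀ y ∈ Y, Int.fract ((b : ℝ) * y) ∈ Y) →
        dimH X + dimH Y < 1 → ∀ r : ℚ, r ≠ 0 → ∀ x ∈ X, ∀ x' ∈ Y, ∀ y ∈ C a, ∀ z ∈ C b,
          x - y = r * (x' - z) → ¬ Irrational (x - y)] := by
  refine ⟨fun a => ⟨C_rat a, fun y hy z hz => C_add a hy hz, fun y hy r => C_smul a hy r⟩,
    fun a ha => ⟨C_liouville ha, transcendental_liouvilleNumber ha⟩,
    fun a x r hr y hy => dim_C a x r hr hy, fun a x k hk => dim_pow a x hk,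
    fun a b ha hb => ?_⟩
  have hIco : ∀ t : ℝ, t ∈ Set.Icc (0 : ℝ) 1 → (∃ s : ℚ, t = s) ∨ t ∈ Set.Ico (0 : ℝ) 1 := by
    intro t ht
    rcases ht.2.lt_or_eq with h | h
    · right
      exact ⟨ht.1, h⟩
    · left
      exact ⟨1, by simp [h]⟩
  tfae_have 1 → 2 := fun h => ⟨Set.Ioo 0 1, isOpen_Ioo, ⟨1 / 2, by norm_num, by norm_num⟩,
    fun x hx => h x ⟨hx.1.le, hx.2⟩⟩
  tfae_have 2 → 5 := by
    rintro ⟨U, hU, ⟨t, ht⟩, h⟩ x hx r r' hr hr' y hy z hz
    rw [dim_C a x r hr hy, dim_C b x r' hr' hz]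
    obtain ⟨ε, hε, hball⟩ := Metric.isOpen_iff.1 hU _ ht
    obtain ⟨s, hs1, hs2⟩ := exists_rat_btwn (show t - x - ε < t - x + ε by linarith)
    have hmem : ((1 : ℚ) : ℝ) * x + s ∈ U := by
      refine hball ?_
      rw [Metric.mem_ball, Real.dist_eq, abs_lt]
      push_cast
      constructor <;> linarith
    have hirr : Irrational (((1 : ℚ) : ℝ) * x + s) := by
      push_cast
      rw [one_mul]
      exact hx.add_ratCast s
    have := h _ hmem hirr
    rwa [F_rat a b x 1 s one_ne_zero] at this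
  tfae_have 5 → 4 := by
    intro h k l hk hl x _ hx
    rw [F_pow a b x hk hl]
    have := h x hx 1 1 one_ne_zero one_ne_zero 0 (C_zero a) 0 (C_zero b)
    rwa [dim_C a x 1 one_ne_zero (C_zero a), dim_C b x 1 one_ne_zero (C_zero b)] at this
  tfae_have 4 → 3 := fun h => ⟨1, 1, one_pos, one_pos, h 1 1 one_pos one_pos⟩
  tfae_have 3 → 1 := by
    rintro ⟨k, l, hk, hl, h⟩ x hx hirr
    have := h x hx hirr
    rwa [F_pow a b x hk hl] at this
  tfae_have 5 → 6 := by
    intro h X Y hX hY hX1 hY1 hXi hYi hdim r hr x hx x' hx' y hy z hz hxy hirr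
    have hr0 : (r : ℝ) ≠ 0 := by exact_mod_cast hr
    have h1 := h (x - y) hirr 1 (1 / r) one_ne_zero (one_div_ne_zero hr) y hy z hz
    have e1 : ((1 : ℚ) : ℝ) * (x - y) + y = x := by push_cast; ring
    have e2 : ((1 / r : ℚ) : ℝ) * (x - y) + z = x' := by
      rw [hxy]
      push_cast
      field_simp
      ring
    rw [e1, e2] at h1
    have h2 : dimH (K a x) ≤ dimH X := by
      rcases hIco x (hX1 hx) with ⟨s, rfl⟩ | hx1
      · have : dimH (K a (s : ℝ)) = 0 := Set.Countable.dimH_zero (C_rat a s)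
        rw [this]
        exact zero_le
      · exact dimH_mono (K_sub_of_inv hX hXi hx hx1)
    have h3 : dimH (K b x') ≤ dimH Y := by
      rcases hIco x' (hY1 hx') with ⟨s, rfl⟩ | hx1
      · have : dimH (K b (s : ℝ)) = 0 := Set.Countable.dimH_zero (C_rat b s)
        rw [this]
        exact zero_le
      · exact dimH_mono (K_sub_of_inv hY hYi hx' hx1)
    exact absurd (h1.trans (add_le_add h2 h3)) (not_le.2 hdim)
  tfae_have 6 → 1 := by
    intro h x hx hirr
    by_contra hcon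
    push Not at hcon
    have hd : ∀ c : ℕ, dimH (K c x ∪ {0}) = dimH (K c x) := by
      intro c
      rw [dimH_union, dimH_singleton]
      simp
    have hsub : ∀ c : ℕ, K c x ∪ {0} ⊆ Set.Icc (0 : ℝ) 1 := by
      intro c
      refine Set.union_subset (K_sub c x) ?_
      rintro _ rfl
      exact ⟨le_rfl, zero_le_one⟩
    have hx0 : ∀ c : ℕ, x ∈ K c x ∪ {0} := by
      intro c
      left
      have := mem_K c x 0
      rwa [pow_zero, one_mul, Int.fract_eq_self.2 hx] at this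
    refine h (K a x ∪ {0}) (K b x ∪ {0}) (isClosed_closure.union isClosed_singleton)
      (isClosed_closure.union isClosed_singleton) (hsub a) (hsub b) (K_inv a x) (K_inv b x) ?_
      1 one_ne_zero x (hx0 a) x (hx0 b) 0 (C_zero a) 0 (C_zero b) (by simp) (by simpa using hirr)
    rw [hd, hd]
    exact hcon
  tfae_finish

end Pool.Agent.Results.MP_c9a594_an.CountableTranslations
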