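import Mathlib
import Pool.Agent.V1189.SE.Final

/-!
# The expansions of irrational numbers in several coprime bases

Let `b_1, …, b_k ≥ 2` be pairwise coprime integers and `x_1, …, x_k` irrational numbers, for instance one
irrational number `x = x_1 = ⋯ = x_k` in all bases, or `x_κ = α_κ x + β_κ` with real algebraic numbers
`α_κ ≠ 0`, `β_κ`. In general let all `x_κ` be affine combinations, with real algebraic coefficients, of `d`
of them, `x_κ` with `κ ∈ J`, `|J| = d`. In the first case and for the affine images of one irrational
number `d = 1`; for algebraic numbers `d = 0`; for three numbers `x, y, x + y` we have `d = 2`.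

We consider the digits of `x_κ` after the point in base `b_κ` up to the place `⌊N / log b_κ⌋`, so that all
numbers are known up to the same precision `e^(-N)`. Call a window of consecutive digits simple if in it
the digits are periodic with a period at most `M` (for instance a block of zeros): during the corresponding
time interval the orbit of `x` under `T_b : x ↦ b x mod 1` follows a periodic orbit of period at most `M`.

We prove: for all `r`, `M` and `ε > 0` there is a constant `C` such that for all `N` and any `r` disjoint
simple windows for each `κ`, with lengths `l_{κ,i}` (`1 ≤ i ≤ r`),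

  `∑_κ ∑_i l_{κ,i} log b_κ ≤ (d + ε) N + C`.

So if `τ_κ = ∑_i l_{κ,i} log b_κ / N` is the proportion of the digits of `x_κ` in base `b_κ` covered by the
windows, then `∑_κ τ_κ ≤ d + ε + o(1)`. For one irrational number `x` in two coprime bases this says
`(1 - τ_a) + (1 - τ_b) ≥ 1 - ε - o(1)`: the inequality of Furstenberg's conjecture holds at every scale if
the dimension of the orbit closure is replaced by the proportion of the digits outside of `r` simple
windows. The number `x` may be a Liouville number. (For the numbers `∑ a^(-n!)` one block of zeros has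
`τ_a → 1` at suitable scales, and these numbers also show that coprime bases are needed: in all bases
divisible by `a` they have long blocks of zeros.)

Proof: the subspace theorem (library) for the vector of the pieces between the windows in all bases, with
the primes dividing the bases as places; because the `x_κ` are irrational and the bases are coprime, the
pieces satisfy no fixed linear relation if the windows are long.
-/

set_option autoImplicit false

namespace Pool.Agent.Results.MP_c9a594_an.SimpleWindowsInSeveralBases

open Finset

/-- the digit of `x` at the place `j` after the point in base `b` -/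
noncomputable def digit (b : ℕ) (x : ℝ) (j : ℕ) : ℤ := ⌊x * (b : ℝ) ^ j⌋ % (b : ℤ)

/-- the digits at the places `w + 1, …, w + l` are periodic with a period at most `M` -/
def Simple (b : ℕ) (x : ℝ) (M w l : ℕ) : Prop :=
  ∃ p : ℕ, 1 ≤ p ∧ p ≤ M ∧ ∀ j, w < j → j + p ≤ w + l → digit b x (j + p) = digit b x j

/-- the windows of the places `w i + 1, …, w i + l i` are disjoint, in increasing order, and inside the
first `n` places -/
def Windows {r : ℕ} (w l : Fin r → ℕ) (n : ℕ) : Prop :=
  (∀ i j, i < j → w i + l i ≤ w j) ∧ ∀ i, w i + l i ≤ n

/-- **The proportions of the digits in simple windows, in pairwise coprime bases, have sum at most `d`**,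
`d = |J|`. For one irrational number `x` in all bases (`x κ = x`, `J` any single index, `α = 1`, `β = 0`) the
bound is `(1 + ε) N + C`. -/
theorem result (k : ℕ) (b : Fin k → ℕ) (hb : ∀ κ, 2 ≤ b κ)
    (hcop : ∀ κ κ', κ ≠ κ' → Nat.Coprime (b κ) (b κ')) (x : Fin k → ℝ)
    (hx : ∀ κ, Irrational (x κ)) (J : Finset (Fin k)) (α : Fin k → Fin k → ℝ) (β : Fin k → ℝ)
    (hα : ∀ κ ν, IsAlgebraic ℚ (α κ ν)) (hβ : ∀ κ, IsAlgebraic ℚ (β κ))
    (hrel : ∀ κ, κ ∉ J → x κ = β κ + ∑ ν ∈ J, α κ ν * x ν) (r M : ℕ) (ε : ℝ) (hε : 0 < ε) :
    ∃ C : ℝ, ∀ N : ℝ, 0 ≤ N → ∀ w l : Fin k → Fin r → ℕ,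
      (∀ κ, Windows (w κ) (l κ) ⌊N / Real.log (b κ)⌋₊) →
      (∀ κ i, Simple (b κ) (x κ) M (w κ i) (l κ i)) →
      ∑ κ, ∑ i, (l κ i : ℝ) * Real.log (b κ) ≤ (J.card + ε) * N + C :=
  Pool.Agent.V1189.SE.main b hb hcop x hx J α β hα hβ hrel r M ε hε

end Pool.Agent.Results.MP_c9a594_an.SimpleWindowsInSeveralBases
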